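import Pool.Agent.H.MP_c02c06_co.AG

set_option autoImplicit false

namespace Pool.Agent.Results.MP_ac9862_nt.Thr

open Pool.Agent.H.MP_c02c06_co Finset

theorem result : (∀ r, 2 ≤ r → ∃! a, AG r a) ∧
    ∀ (a : ℕ → ℕ → ℕ) (G : ℕ → ℕ), (∀ r, 2 ≤ r → AG r (a r)) → (∀ n, 1 ≤ n → 1 ≤ G n) →
      (∀ m n, 1 ≤ m → m ≤ n → G m ≤ G n) → (∀ n, 1 ≤ n → mult G n = G n) → ∀ k : ℕ, 4 ≤ k →
      ∃ j j' : ℕ, IsLeast {r | 2 ≤ r ∧ (k : ℕ∞) ≤ maxMult (a r)} j ∧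
        IsLeast {r | 2 ≤ r ∧ ((k + 1 : ℕ) : ℕ∞) ≤ maxMult (a r)} j' ∧
        j = ∑ n ∈ Icc 1 (k - 1), G n + 2 ∧ j' = j + G k := by
  refine ⟨fun r h2 => ⟨g r, ag h2, fun a h => uniq h2 h⟩, fun a G ha hp hm hc k hk => ?_⟩
  have e : ∀ k : ℕ, {r | 2 ≤ r ∧ (k : ℕ∞) ≤ maxMult (a r)} =
      {r | 2 ≤ r ∧ (k : ℕ∞) ≤ maxMult (g r)} := fun k => by
    ext r
    exact and_congr_right fun h => by rw [uniq h (ha r h)]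
  rw [e, e]
  refine ⟨_, _, least hp hm hc k hk, least hp hm hc (k + 1) (by omega), rfl, ?_⟩
  obtain ⟨k, rfl⟩ : ∃ m, k = m + 1 := ⟨k - 1, by omega⟩
  simp only [Nat.add_sub_cancel]
  rw [sum_Icc_succ_top (by omega)]
  omega

end Pool.Agent.Results.MP_ac9862_nt.Thr
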